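import Mathlib
import Pool.Agent.H.MP_b47357_gt.Main

set_option autoImplicit false

namespace Pool.Agent.Results.MP_b47357_gt.Counter

open Pool.Agent.H.MP_b47357_gt Set

universe u

def WL (X : Type u) [TopologicalSpace X] : Prop :=
  ∀ 𝒰 : Set (Set X), (∀ U ∈ 𝒰, IsOpen U) → ⋃₀ 𝒰 = univ → ∃ 𝒱 ⊆ 𝒰, 𝒱.Countable ∧ Dense (⋃₀ 𝒱)

theorem result : ∃ (X : Type) (_ : TopologicalSpace X), T35Space X ∧
    (∀ (Y : Type u) [TopologicalSpace Y], WL Y → WL (X × Y)) ∧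
    ∃ 𝒰 : Set (Set X), (∀ U ∈ 𝒰, IsGδ U) ∧ univ ∉ 𝒰 ∧
      (∀ C : Set X, IsCompact C → ∃ U ∈ 𝒰, C ⊆ U) ∧
      ∀ 𝒱 ⊆ 𝒰, 𝒱.Countable → ¬ Dense (⋃₀ 𝒱) :=
  ⟨XX, inferInstance, inferInstance, fun Y _ hY => prod_wl XX_dense Y hY, {U | U.Countable},
    fun U _ => all_gdelta U, fun h => not_dense h dense_univ,
    fun C hC => ⟨C, compact_ctble hC, Subset.rfl⟩, fun _ h1 h2 => not_dense (h2.sUnion h1)⟩

end Pool.Agent.Results.MP_b47357_gt.Counter
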